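import Pool.Agent.H52.PSR.Targets

/-!
MP_29035e_co: module RED (board psr_modules): field reduction and a hyperplane section.
-/

namespace Pool.Agent.H67.PSR

open Pool.Agent.H52.PSR Pool.Agent.H41.SP Module

universe u

section
variable {F : Type u} [Field F] {E : Type} [Field E] [Algebra F E]

/-- the bilinear form -/
noncomputable def BB (τ : E →ₗ[F] F) : (Fin 8 → E) →ₗ[F] (Fin 8 → E) →ₗ[F] F :=
  LinearMap.mk₂ F (fun x y => τ (B8 x y))
    (fun x x' y => by
      rw [← map_add]; congr 1
      simp only [B8, Pi.add_apply, ← Finset.sum_add_distrib]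
      exact Finset.sum_congr rfl fun i _ => by ring)
    (fun c x y => by
      rw [← map_smul]; congr 1
      simp only [B8, Pi.smul_apply, Finset.smul_sum, smul_mul_assoc])
    (fun x y y' => by
      rw [← map_add]; congr 1
      simp only [B8, Pi.add_apply, ← Finset.sum_add_distrib]
      exact Finset.sum_congr rfl fun i _ => by ring)
    (fun c x y => by
      rw [← map_smul]; congr 1
      simp only [B8, Pi.smul_apply, Finset.smul_sum, mul_smul_comm])

theorem BB_apply (τ : E →ₗ[F] F) (x y : Fin 8 → E) : BB τ x y = τ (B8 x y) := rfl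

theorem BB_comm (τ : E →ₗ[F] F) (x y : Fin 8 → E) : BB τ x y = BB τ y x := by
  rw [BB_apply, BB_apply]
  congr 1
  unfold B8
  exact Finset.sum_congr rfl fun i _ => mul_comm _ _

/-- the quadratic form -/
noncomputable def QQ (τ : E →ₗ[F] F) : QuadraticForm F (Fin 8 → E) :=
  LinearMap.BilinMap.toQuadraticMap (BB τ)

theorem QQ_apply (τ : E →ₗ[F] F) (x : Fin 8 → E) : QQ τ x = τ (N8 x) := by
  rw [QQ, LinearMap.BilinMap.toQuadraticMap_apply, BB_apply]
  congr 1
  unfold B8 N8
  exact Finset.sum_congr rfl fun i _ => (sq _).symm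

theorem QQ_polar (τ : E →ₗ[F] F) (x y : Fin 8 → E) :
    QuadraticMap.polar (QQ τ) x y = 2 * BB τ x y := by
  rw [QQ, LinearMap.BilinMap.polar_toQuadraticMap, BB_comm τ y x]
  ring

theorem QQ_nonsing (τ : E →ₗ[F] F) (h2 : (2 : F) ≠ 0) (h1 : τ 1 ≠ 0) : NonSing (QQ τ) := by
  intro x hx
  funext i
  by_contra hi
  have hi' : x i ≠ 0 := hi
  have h := hx (Pi.single i (x i)⁻¹)
  rw [QQ_polar, mul_eq_zero] at h
  rcases h with h | h
  · exact h2 h
  · rw [BB_apply] at h
    have : B8 x (Pi.single i (x i)⁻¹) = 1 := by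
      unfold B8
      rw [Finset.sum_eq_single i]
      · rw [Pi.single_eq_same, mul_inv_cancel₀ hi']
      · intro j _ hj
        rw [Pi.single_eq_of_ne hj, mul_zero]
      · intro h; exact absurd (Finset.mem_univ i) h
    rw [this] at h
    exact h1 h

end

theorem pf_RED : T_RED.{u} := by
  intro F _ _ E _ _ _ h2 S hS hdis
  classical
  have hfin : Module.Finite F E := inferInstance
  set t := finrank F E with ht
  have ht1 : 1 ≤ t := Module.finrank_pos
  obtain ⟨τ, hτ⟩ : ∃ τ : E →ₗ[F] F, τ 1 ≠ 0 := by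
    by_contra hcon
    push Not at hcon
    exact one_ne_zero ((Module.forall_dual_apply_eq_zero_iff F (1 : E)).1 hcon)
  set Q0 := QQ τ with hQ0
  have hns := QQ_nonsing τ h2 hτ
  set w : Fin 8 → E := Pi.single 0 1 with hw
  have hww : BB τ w w ≠ 0 := by
    rw [BB_apply]
    have : B8 w w = 1 := by
      unfold B8
      rw [Finset.sum_eq_single 0]
      · rw [hw, Pi.single_eq_same, mul_one]
      · intro j _ hj
        rw [hw, Pi.single_eq_of_ne hj, mul_zero]
      · intro h; exact absurd (Finset.mem_univ _) h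
    rw [this]; exact hτ
  have hdimW : finrank F (Fin 8 → E) = 8 * t := by
    rw [Module.finrank_pi_fintype]
    simp [ht]
  set V : Submodule F (Fin 8 → E) := LinearMap.ker (BB τ w) with hV
  have hdimV : finrank F V = 8 * t - 1 := by
    have h1 := LinearMap.finrank_range_add_finrank_ker (BB τ w)
    have h3 : LinearMap.range (BB τ w) = ⊤ := by
      apply LinearMap.range_eq_top.2
      apply LinearMap.surjective
      intro h0
      apply hww
      rw [h0]; rfl
    rw [h3, finrank_top, Module.finrank_self, hdimW, ← hV] at h1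
    omega
  set Q : QuadraticForm F V := Q0.comp V.subtype with hQ
  have hQap : ∀ x : V, Q x = Q0 x.1 := fun x => rfl
  have hpol : ∀ x y : V, QuadraticMap.polar Q x y = QuadraticMap.polar Q0 x.1 y.1 := by
    intro x y
    unfold QuadraticMap.polar
    rfl
  have hnsV : NonSing Q := by
    intro x hx
    have hxw : BB τ w x.1 = 0 := x.2
    apply Subtype.ext
    apply hns
    intro y
    rw [QQ_polar]
    have h3 : y - (BB τ w y / BB τ w w) • w ∈ V := by
      rw [hV, LinearMap.mem_ker, map_sub, map_smul, smul_eq_mul, div_mul_cancel₀ _ hww, sub_self]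
    have h4 := hx ⟨_, h3⟩
    rw [hpol] at h4
    change QuadraticMap.polar Q0 x.1 (y - (BB τ w y / BB τ w w) • w) = 0 at h4
    rw [QQ_polar, map_sub, map_smul, BB_comm τ x.1 w, hxw, smul_zero, sub_zero] at h4
    exact h4
  -- the members
  let Φ : Submodule E (Fin 8 → E) → Submodule F V :=
    fun X => Submodule.comap V.subtype (X.restrictScalars F)
  have hmem : ∀ (X : Submodule E (Fin 8 → E)) (x : V), x ∈ Φ X ↔ x.1 ∈ X := by
    intro X x; rfl
  have hfinX : ∀ X ∈ S, finrank F (X.restrictScalars F) = 4 * t := by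
    intro X hX
    have h1 := Module.finrank_mul_finrank F E X
    rw [(hS X hX).1] at h1
    have h3 : finrank F (X.restrictScalars F) = finrank F X := rfl
    rw [h3, ← h1]; ring
  have htot : ∀ X ∈ S, ∀ x ∈ Φ X, Q x = 0 := by
    intro X hX x hx
    rw [hQap, hQ0, QQ_apply, (hS X hX).2 _ ((hmem X x).1 hx), map_zero]
  have hdimX : ∀ X ∈ S, finrank F (Φ X) = 4 * t - 1 := by
    intro X hX
    have h1 : finrank F (Φ X) = finrank F (V ⊓ X.restrictScalars F : Submodule F (Fin 8 → E)) := by
      rw [← Submodule.finrank_map_subtype_eq V (Φ X), Submodule.map_comap_subtype]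
    have h3 := Submodule.finrank_sup_add_finrank_inf_eq V (X.restrictScalars F)
    have h4 := Submodule.finrank_le (V ⊔ X.restrictScalars F)
    rw [hfinX X hX, hdimV] at h3
    rw [hdimW] at h4
    have h5 := ts_dim hnsV (htot X hX)
    rw [hdimV] at h5
    omega
  have hinf : ∀ X ∈ S, ∀ Y ∈ S, X ≠ Y → Φ X ⊓ Φ Y = ⊥ := by
    intro X hX Y hY hne
    rw [eq_bot_iff]
    intro x hx
    have h1 : x.1 ∈ X ⊓ Y := ⟨(hmem X x).1 hx.1, (hmem Y x).1 hx.2⟩
    rw [hdis X hX Y hY hne, Submodule.mem_bot] at h1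
    rw [Submodule.mem_bot]
    exact Subtype.ext h1
  refine ⟨V, inferInstance, inferInstance, inferInstance, Q, Φ '' S, hnsV, hdimV, ⟨?_, ?_, ?_⟩, ?_⟩
  · rintro _ ⟨X, hX, rfl⟩ x hx
    exact htot X hX x hx
  · rintro _ ⟨X, hX, rfl⟩
    exact hdimX X hX
  · rintro _ ⟨X, hX, rfl⟩ _ ⟨Y, hY, rfl⟩ hne
    exact hinf X hX Y hY (fun h => hne (by rw [h]))
  · refine Set.InjOn.ncard_image ?_
    intro X hX Y hY hXY
    by_contra hne
    have h1 := hinf X hX Y hY hne
    rw [← hXY, inf_idem] at h1
    have h3 := hdimX X hX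
    rw [h1, finrank_bot] at h3
    omega

end Pool.Agent.H67.PSR
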